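import Pool.Agent.Helper55.FR.GoalsA

/-!
# Packet FR-IDF (project FR, MP_79b960_co)
-/

set_option autoImplicit false

namespace Pool.Agent.Helper30.FR

open Finset Pool.Agent.Helper55.FR

theorem idf : IdfStmt := by
  intro V _ _ n m B g T I Q f hP hF
  have h1 : ∀ x, f x = Lab.I → f (n x) = Lab.T := fun x hx =>
    (hF.fT _).2 (hP.cI x ((hF.fI x).1 hx)).1
  have h2 : ∀ x, f (n x) = Lab.I → f x = Lab.T := fun x hx => by
    have := (hP.cI (n x) ((hF.fI _).1 hx)).2.1
    rw [Equiv.symm_apply_apply] at this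
    exact (hF.fT _).2 this
  have h3 : ∀ x, isK (f x) → f (n x) = f x ∨ f (n x) = Lab.T := fun x hx => by
    obtain ⟨K, hK, hxK⟩ := (hF.fK x).1 hx
    rcases (hP.cK K hK x hxK).1 with h | h
    · exact Or.inl (hF.same K hK _ h _ hxK)
    · exact Or.inr ((hF.fT _).2 h)
  have h4 : ∀ x, isK (f (n x)) → f (n x) = f x ∨ f x = Lab.T := fun x hx => by
    obtain ⟨K, hK, hxK⟩ := (hF.fK (n x)).1 hx
    have := (hP.cK K hK (n x) hxK).2.1
    rw [Equiv.symm_apply_apply] at this
    rcases this with h | h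
    · exact Or.inl (hF.same K hK _ hxK _ h)
    · exact Or.inr ((hF.fT _).2 h)
  have key : ∀ a b : Lab, (a = Lab.I → b = Lab.T) → (b = Lab.I → a = Lab.T) →
      (isK a → b = a ∨ b = Lab.T) → (isK b → b = a ∨ a = Lab.T) →
      (if a = Lab.T then 1 else 0) + (if b = Lab.T then 1 else 0) =
      (if a = Lab.I then 1 else 0) + (if b = Lab.I then 1 else 0) +
        (if spc a b then 1 else 0) + (if a = Lab.T ∧ b = Lab.T then 1 else 0) := by
    decide
  have eT : T.card = ∑ x, if f x = Lab.T then 1 else 0 := by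
    rw [← Finset.card_filter]
    congr 1
    ext x
    simp [hF.fT]
  have eI : I.card = ∑ x, if f x = Lab.I then 1 else 0 := by
    rw [← Finset.card_filter]
    congr 1
    ext x
    simp [hF.fI]
  have eS : (Spc n f).card = ∑ x, if spc (f x) (f (n x)) then 1 else 0 := by
    unfold Spc
    rw [Finset.card_filter]
  have eTT : (T.filter fun x => n x ∈ T).card =
      ∑ x, if f x = Lab.T ∧ f (n x) = Lab.T then 1 else 0 := by
    rw [← Finset.card_filter]
    congr 1
    ext x
    simp [hF.fT]
  have eT' : T.card = ∑ x, if f (n x) = Lab.T then 1 else 0 := by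
    rw [eT]
    exact (Equiv.sum_comp n fun x => if f x = Lab.T then 1 else 0).symm
  have eI' : I.card = ∑ x, if f (n x) = Lab.I then 1 else 0 := by
    rw [eI]
    exact (Equiv.sum_comp n fun x => if f x = Lab.I then 1 else 0).symm
  have := Finset.sum_congr rfl fun x (_ : x ∈ (univ : Finset V)) =>
    key (f x) (f (n x)) (h1 x) (h2 x) (h3 x) (h4 x)
  simp only [Finset.sum_add_distrib] at this
  rw [← eT, ← eT', ← eI, ← eI', ← eS, ← eTT] at this
  omega

end Pool.Agent.Helper30.FR
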