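import Pool.Agent.Helper92.FR.GoalsB

set_option autoImplicit false

/-! Project FR, packet PAS. -/

namespace Pool.Agent.Helper30.FR

open Pool.Agent.Helper92.FR Pool.Agent.Helper81.CC Pool.Agent.Bin

lemma list_sum {n : ℕ} (T : List (List Qn)) (hT : T.length = n) (φ : List Qn → ℝ) :
    (T.map φ).sum = ∑ i : Fin n, φ (T.getD i []) := by
  have h1 : T.map φ = List.ofFn (fun i : Fin n => φ (T.getD i [])) := by
    apply List.ext_getElem
    · simp [hT]
    · intro i h1 h2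
      have h3 : i < T.length := by simpa using h1
      simp [List.getElem?_eq_getElem h3]
  rw [h1, List.sum_ofFn]

lemma val_invNat {n : ℕ} (hn : 1 ≤ n) : Qn.val (invNat n) = 1 / n := by
  unfold invNat Qn.val
  simp only [BN.val_sub]
  have h1 : (BN.ofNat n).val = n := by simp
  rw [h1]
  have h2 : ((n - 1 : ℕ) : ℝ) + 1 = n := by
    have : n - 1 + 1 = n := by omega
    exact_mod_cast this
  simp [h2]

theorem pas (h0 : Val0Stmt) (h1 : Val1Stmt) (h2 : LdlStmt) (h3 : HpdStmt) : PasStmt := by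
  intro D lam P K m R hD hlam hS hnm hPK hnR hRP hlamR hcol
  obtain ⟨a1, a2, a3, -, a5, a6⟩ := h1 D lam hD hlam
  obtain ⟨b1, b2⟩ := h3 D.1.length (nrow D) (CR D) (SR D) (lv (nrow D) lam) hS
  obtain ⟨c1, c2, ⟨h, hh1, hh2⟩, c4, c5⟩ := h2 (nrow D) m (hh D lam) a1 a2 hnm (by
    rw [a3]; exact b1)
  have hNor : Nor (CR D) (SR D) (lv (nrow D) lam) (lm (nrow D) (tmat (hh D lam) m)) :=
    ⟨h, hh1, by rw [← a3]; exact hh2⟩
  obtain ⟨d1, -⟩ := b2 _ hNor
  set T := lm (nrow D) (tmat (hh D lam) m) with hT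
  set gv := lv (nrow D) (gtil D lam P K) with hgv
  set g := gg (CR D) (SR D) (eR D) (lv (nrow D) lam) with hg
  have hP1 : 1 ≤ P := by omega
  have herr : ∀ i, |gv i - g i| ≤ 2 ^ R * (2 / 2 ^ P) := fun i =>
    (a6 P K hP1 hPK i).trans (mul_le_mul_of_nonneg_right (hcol i) (by positivity))
  have hTb : ∀ i l, |T i l| ≤ 2 * (1 + 2 ^ R) := fun i l =>
    (d1 i l).trans (by have := hlamR l; linarith)
  -- the value of the test
  have hval : Qn.val (Qn.sum ((tmat (hh D lam) m).map fun t =>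
      Qn.mul (dot t (gtil D lam P K)) (dot t (gtil D lam P K)))) = ∑ i, (T.mulVec gv i) ^ 2 := by
    rw [Qn.val_sum, List.map_map, list_sum _ c1]
    apply Finset.sum_congr rfl
    intro i _
    have hl : ((tmat (hh D lam) m).getD i []).length = nrow D := by
      have hi : (i : ℕ) < (tmat (hh D lam) m).length := by rw [c1]; exact i.2
      rw [List.getD_eq_getElem _ _ hi]
      exact c2 _ (List.getElem_mem hi)
    have e1 := h0.1 (nrow D) ((tmat (hh D lam) m).getD i []) (gtil D lam P K) hl (a5 P K)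
    have e2 : T.mulVec gv i = ∑ l, lv (nrow D) ((tmat (hh D lam) m).getD i []) l * gv l := rfl
    simp only [Function.comp, Qn.val_mul]
    rw [e1, e2, sq]
  -- the error
  have hn : ((nrow D : ℕ) : ℝ) ≤ 2 ^ R := by exact_mod_cast hnR
  have hδ : ∀ i, |T.mulVec gv i - T.mulVec g i| ≤ 2 ^ (3 * R + 3) / 2 ^ P := by
    intro i
    have e1 : T.mulVec gv i - T.mulVec g i = ∑ l, T i l * (gv l - g l) := by
      simp only [Matrix.mulVec, dotProduct, mul_sub, Finset.sum_sub_distrib]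
    rw [e1]
    calc |∑ l, T i l * (gv l - g l)| ≤ ∑ l, |T i l * (gv l - g l)| :=
          Finset.abs_sum_le_sum_abs _ _
      _ ≤ ∑ _l : Fin (nrow D), 2 * (1 + 2 ^ R) * (2 ^ R * (2 / 2 ^ P)) := by
          apply Finset.sum_le_sum
          intro l _
          rw [abs_mul]
          exact mul_le_mul (hTb i l) (herr l) (abs_nonneg _) (by positivity)
      _ = (nrow D : ℝ) * (2 * (1 + 2 ^ R) * (2 ^ R * (2 / 2 ^ P))) := by
          rw [Finset.sum_const, Finset.card_univ, Fintype.card_fin, nsmul_eq_mul]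
      _ ≤ 2 ^ R * (2 * (2 ^ R + 2 ^ R) * (2 ^ R * (2 / 2 ^ P))) := by
          apply mul_le_mul hn _ (by positivity) (by positivity)
          apply mul_le_mul_of_nonneg_right _ (by positivity)
          have : (1 : ℝ) ≤ 2 ^ R := one_le_pow₀ (by norm_num)
          linarith
      _ = 2 ^ (3 * R + 3) / 2 ^ P := by
          rw [pow_add, pow_mul', ]
          ring
  have hδ2 : (2 : ℝ) ^ (3 * R + 3) / 2 ^ P ≤ 1 / (2 ^ R * 2 ^ 90) := by
    rw [div_le_div_iff₀ (by positivity) (by positivity), one_mul, ← pow_add, ← pow_add]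
    exact pow_le_pow_right₀ (by norm_num) (by omega)
  have hsum : ∑ i, (T.mulVec gv i - T.mulVec g i) ^ 2 ≤ 1 / 10 ^ 17 := by
    calc ∑ i, (T.mulVec gv i - T.mulVec g i) ^ 2 ≤ ∑ _i : Fin (nrow D), (1 / (2 ^ R * 2 ^ 90)) ^ 2 := by
          apply Finset.sum_le_sum
          intro i _
          rw [← sq_abs]
          exact pow_le_pow_left₀ (abs_nonneg _) ((hδ i).trans hδ2) 2
      _ = (nrow D : ℝ) * (1 / (2 ^ R * 2 ^ 90)) ^ 2 := by
          rw [Finset.sum_const, Finset.card_univ, Fintype.card_fin, nsmul_eq_mul]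
      _ ≤ 2 ^ R * (1 / (2 ^ R * 2 ^ 90)) ^ 2 :=
          mul_le_mul_of_nonneg_right hn (by positivity)
      _ ≤ 1 / 10 ^ 17 := by
          have h1 : (1 : ℝ) ≤ 2 ^ R := one_le_pow₀ (by norm_num)
          have h2 : (2 : ℝ) ^ R * (1 / (2 ^ R * 2 ^ 90)) ^ 2 = 1 / (2 ^ R * 2 ^ 180) := by
            field_simp
          rw [h2]
          apply one_div_le_one_div_of_le (by positivity)
          calc (10 : ℝ) ^ 17 ≤ 1 * 2 ^ 180 := by norm_num
            _ ≤ 2 ^ R * 2 ^ 180 := mul_le_mul_of_nonneg_right h1 (by positivity)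
  have hcmp : ∀ a b : Fin (nrow D) → ℝ, ∑ i, (a i) ^ 2 ≤
      2 * (∑ i, (b i) ^ 2) + 2 * ∑ i, (a i - b i) ^ 2 := by
    intro a b
    rw [Finset.mul_sum, Finset.mul_sum, ← Finset.sum_add_distrib]
    apply Finset.sum_le_sum
    intro i _
    nlinarith [sq_nonneg (a i - 2 * b i), sq_nonneg (a i - b i - b i)]
  have hpass : Pool.Agent.Helper92.FR.pass D lam P K m = true ↔ ∑ i, (T.mulVec gv i) ^ 2 ≤ 1 / 10 ^ 14 := by
    unfold Pool.Agent.Helper92.FR.pass
    rw [Qn.le_iff, hval, val_invNat (by norm_num)]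
    norm_num
  refine ⟨hNor, c1, c2, c4, c5, ?_, ?_⟩
  · intro h
    have e1 := hpass.1 h
    have e2 := hcmp (T.mulVec g) (T.mulVec gv)
    have e3 : ∑ i, (T.mulVec g i - T.mulVec gv i) ^ 2 = ∑ i, (T.mulVec gv i - T.mulVec g i) ^ 2 :=
      Finset.sum_congr rfl fun i _ => by ring
    rw [e3] at e2
    have e4 : (2 : ℝ) * (1 / 10 ^ 14) + 2 * (1 / 10 ^ 17) ≤ 1 / 10 ^ 13 := by norm_num
    linarith
  · intro h
    rw [hpass]
    have e2 := hcmp (T.mulVec gv) (T.mulVec g)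
    have e4 : (2 : ℝ) * (1 / 10 ^ 15) + 2 * (1 / 10 ^ 17) ≤ 1 / 10 ^ 14 := by norm_num
    linarith

end Pool.Agent.Helper30.FR
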